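import Pool.Agent.Helper15.BB.St

/-!
The commutative language of the example is not context-free.
-/

namespace Pool.Agent.Helper15.BB

open Pool.Agent.Helper22.FL Pool.Agent.Helper22.CS

/-- the three directions -/
def qq (n : ℕ) : Fin 3 → Fin n → ℕ :=
  ![fun a => 2 ^ (a : ℕ), fun a => 4 ^ (a : ℕ), fun a => 2 * 4 ^ n - 2 ^ (a : ℕ) - 4 ^ (a : ℕ)]

theorem qq_sum (n : ℕ) (k : Fin 3 → ℕ) (a : Fin n) :
    (((0 : Fin n → ℕ) + ∑ j, k j • qq n j) a : ℤ) =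
      ((k 0 : ℤ) - k 2) * 2 ^ (a : ℕ) + ((k 1 : ℤ) - k 2) * 4 ^ (a : ℕ) + k 2 * (2 * 4 ^ n) := by
  have h4 : (4 : ℕ) ^ (a : ℕ) ≤ 4 ^ n := Nat.pow_le_pow_right (by norm_num) a.2.le
  have h2 : (2 : ℕ) ^ (a : ℕ) ≤ 4 ^ (a : ℕ) := Nat.pow_le_pow_left (by norm_num) _
  have h5 : (2 * 4 ^ n - 2 ^ (a : ℕ) - 4 ^ (a : ℕ) : ℕ) + 2 ^ (a : ℕ) + 4 ^ (a : ℕ) =
      2 * 4 ^ n := by omega
  have h6 : ((2 * 4 ^ n - 2 ^ (a : ℕ) - 4 ^ (a : ℕ) : ℕ) : ℤ) =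
      2 * 4 ^ n - 2 ^ (a : ℕ) - 4 ^ (a : ℕ) := by
    have : (((2 * 4 ^ n - 2 ^ (a : ℕ) - 4 ^ (a : ℕ) : ℕ) + 2 ^ (a : ℕ) + 4 ^ (a : ℕ) : ℕ) : ℤ) =
        ((2 * 4 ^ n : ℕ) : ℤ) := by rw [h5]
    push_cast at this
    linarith
  have h7 : ((0 : Fin n → ℕ) + ∑ j, k j • qq n j) a =
      k 0 * 2 ^ (a : ℕ) + k 1 * 4 ^ (a : ℕ) +
        k 2 * (2 * 4 ^ n - 2 ^ (a : ℕ) - 4 ^ (a : ℕ)) := by
    simp [Fin.sum_univ_three, qq]
  rw [h7]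
  push_cast
  rw [h6]
  ring

theorem qq_inV (n : ℕ) (k : Fin 3 → ℕ) : InV ((0 : Fin n → ℕ) + ∑ j, k j • qq n j) := by
  intro i h
  have h0 := qq_sum n k ⟨i, by omega⟩
  have h1 := qq_sum n k ⟨i + 1, by omega⟩
  have h2 := qq_sum n k ⟨i + 2, by omega⟩
  have h3 := qq_sum n k ⟨i + 3, h⟩
  simp only at h0 h1 h2 h3
  have : ((((0 : Fin n → ℕ) + ∑ j, k j • qq n j) ⟨i + 3, h⟩ +
      14 * ((0 : Fin n → ℕ) + ∑ j, k j • qq n j) ⟨i + 1, by omega⟩ : ℕ) : ℤ) =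
      ((7 * ((0 : Fin n → ℕ) + ∑ j, k j • qq n j) ⟨i + 2, by omega⟩ +
        8 * ((0 : Fin n → ℕ) + ∑ j, k j • qq n j) ⟨i, by omega⟩ : ℕ) : ℤ) := by
    rw [Nat.cast_add, Nat.cast_add, Nat.cast_mul, Nat.cast_mul, Nat.cast_mul, h0, h1, h2, h3]
    push_cast
    ring
  exact_mod_cast this

theorem qq_mem {n : ℕ} (hn : 4 ≤ n) (k : Fin 3 → ℕ) :
    ((0 : Fin n → ℕ) + ∑ j, k j • qq n j) ∈ SB n ↔ k 0 = k 2 ∧ k 1 = k 2 := by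
  constructor
  · rintro (h | h)
    · exact absurd (qq_inV n k) h
    · have h0 := qq_sum n k ⟨0, by omega⟩
      have h1 := qq_sum n k ⟨1, by omega⟩
      have h2 := qq_sum n k ⟨2, by omega⟩
      rw [h ⟨0, by omega⟩ ⟨2, by omega⟩] at h0
      rw [h ⟨1, by omega⟩ ⟨2, by omega⟩] at h1
      simp only [pow_zero, pow_one] at h0 h1 h2
      norm_num at h0 h1 h2
      constructor
      · omega
      · omega
  · rintro ⟨h0, h1⟩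
    right
    intro i j
    have hi := qq_sum n k i
    have hj := qq_sum n k j
    rw [h0, h1] at hi hj
    have : ((((0 : Fin n → ℕ) + ∑ j, k j • qq n j) i : ℕ) : ℤ) =
        (((0 : Fin n → ℕ) + ∑ j, k j • qq n j) j : ℕ) := by
      rw [hi, hj]
      ring
    exact_mod_cast this

theorem stn : StN := by
  intro n hn hCF
  have hT := Pool.Agent.Helper15.TS.allSLI n (SB n) hCF
  have hq : ∀ j, qq n j ≠ 0 := by
    intro j hj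
    have h0 := congrFun hj ⟨0, by omega⟩
    have h4 : (4 : ℕ) ≤ 4 ^ n := by
      calc 4 = 4 ^ 1 := by norm_num
        _ ≤ 4 ^ n := Nat.pow_le_pow_right (by norm_num) (by omega)
    fin_cases j <;> simp [qq] at h0
    omega
  obtain ⟨K, hK, h⟩ := Pool.Agent.Helper15.TS.allPMP n (SB n) hT 0 (qq n) hq
  obtain ⟨ρ, h1, h2, h3, h4⟩ := h (fun _ => K) ((qq_mem hn _).2 ⟨rfl, rfl⟩) le_rfl
  have h5 := (qq_mem hn (fun j => K + 1 * ρ j)).1 (h4 1)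
  omega

end Pool.Agent.Helper15.BB
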