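import Pool.Agent.Helper15.BB.St

/-!
The complement of the recurrence is context-free.
-/

namespace Pool.Agent.Helper15.BB

open Pool.Agent.Helper22.FL Pool.Agent.Helper22.CS Pool.Agent.Helper15.TS

variable {n : ℕ}

theorem wge_cf (α : Fin n → ℤ) (B : ℤ) (hB : 1 ≤ B) (hα : ∀ i, |α i| ≤ B) :
    Language.IsContextFree ({w | 1 ≤ ∑ i, α i * (w.count i : ℤ)} : Language (Fin n)) := by
  have hl : ∀ i, (fun _ => -B : Fin n → ℤ) i ≤ α i := fun i => (abs_le.1 (hα i)).1
  have key : ({w | 1 ≤ ∑ i, α i * (w.count i : ℤ)} : Language (Fin n)) =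
      {w | Wt (fun t => Set.Icc ((fun _ => -B : Fin n → ℤ) t) (α t)) w 1} := by
    ext w
    change _ ↔ Wt _ w 1
    rw [wt_icc _ α hl]
    have h0 : ∑ i : Fin n, -B * (w.count i : ℤ) ≤ 0 := by
      refine Finset.sum_nonpos fun i _ => ?_
      have : 0 ≤ B * (w.count i : ℤ) := mul_nonneg (by omega) (by positivity)
      linarith
    constructor
    · intro h
      exact ⟨by linarith, h⟩
    · intro h
      exact h.2
  rw [key]
  refine isContextFree_wtB (B := B) (by omega) (fun t x hx => ?_) 1 (by omega) hB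
  have := abs_le.1 (hα t)
  rw [Set.mem_Icc] at hx ⊢
  constructor
  · exact hx.1
  · linarith [hx.2, this.2]

/-- the weights -/
def wα (n i : ℕ) : Fin n → ℤ := fun a =>
  if (a : ℕ) = i + 3 then 1 else if (a : ℕ) = i + 2 then -7 else if (a : ℕ) = i + 1 then 14
    else if (a : ℕ) = i then -8 else 0

theorem wα_sum (i : ℕ) (h : i + 3 < n) (x : Fin n → ℕ) :
    ∑ a, wα n i a * (x a : ℤ) = (x ⟨i + 3, h⟩ : ℤ) - 7 * x ⟨i + 2, by omega⟩ +
      14 * x ⟨i + 1, by omega⟩ - 8 * x ⟨i, by omega⟩ := by
  have h1 : ∀ a : Fin n, wα n i a * (x a : ℤ) =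
      (if a = ⟨i + 3, h⟩ then (x a : ℤ) else 0) + (if a = ⟨i + 2, by omega⟩ then -7 * (x a : ℤ) else 0) +
      (if a = ⟨i + 1, by omega⟩ then 14 * (x a : ℤ) else 0) +
        (if a = ⟨i, by omega⟩ then -8 * (x a : ℤ) else 0) := by
    intro a
    simp only [wα, Fin.ext_iff]
    split_ifs <;> first | omega | simp_all
  rw [Finset.sum_congr rfl fun a _ => h1 a]
  simp only [Finset.sum_add_distrib, Finset.sum_ite_eq', Finset.mem_univ, if_true]
  ring

theorem stw : StW := by
  intro n
  let D : Fin n × Bool → Set (Fin n → ℕ) := fun p => {x | (p.1 : ℕ) + 3 < n ∧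
    1 ≤ ∑ a, (if p.2 then wα n p.1 a else -wα n p.1 a) * (x a : ℤ)}
  have key : ({w | ¬ InV (parikh w)} : Language (Fin n)) = comLang (⋃₀ Set.range D) := by
    ext w
    constructor
    · intro hw
      change ¬ InV (parikh w) at hw
      unfold InV at hw
      push Not at hw
      obtain ⟨i, h, hne⟩ := hw
      have hs := wα_sum i h (parikh w)
      have hne' : ∑ a, wα n i a * (parikh w a : ℤ) ≠ 0 := by
        rw [hs]
        intro h0
        apply hne
        omega
      rcases lt_or_gt_of_ne hne' with hlt | hgt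
      · refine ⟨D (⟨i, by omega⟩, false), ⟨_, rfl⟩, h, ?_⟩
        simp only [Bool.false_eq_true, if_false, neg_mul, Finset.sum_neg_distrib]
        omega
      · refine ⟨D (⟨i, by omega⟩, true), ⟨_, rfl⟩, h, ?_⟩
        simp only [if_true]
        omega
    · rintro ⟨_, ⟨⟨i, b⟩, rfl⟩, h, h1⟩
      change ¬ InV (parikh w)
      intro hV
      have h2 := hV i h
      have hs := wα_sum (i : ℕ) h (parikh w)
      have h0 : ∑ a, wα n i a * (parikh w a : ℤ) = 0 := by
        rw [hs]
        omega
      cases b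
      · simp only [Bool.false_eq_true, if_false, neg_mul, Finset.sum_neg_distrib] at h1
        omega
      · simp only [if_true] at h1
        omega
  rw [key]
  refine comLang_sUnion_cf (Set.finite_range D) ?_
  rintro _ ⟨⟨i, b⟩, rfl⟩
  by_cases h : (i : ℕ) + 3 < n
  · have h2 := wge_cf (fun a => if b then wα n i a else -wα n i a) 14 (by norm_num) (by
      intro a
      have : |wα n i a| ≤ 14 := by
        simp only [wα]
        split_ifs <;> norm_num
      cases b
      · simpa using this
      · simpa using this)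
    have h3 : comLang (D (i, b)) =
        {w | 1 ≤ ∑ a, (if b then wα n i a else -wα n i a) * (w.count a : ℤ)} := by
      ext w
      exact ⟨fun h => h.2, fun h' => ⟨h, h'⟩⟩
    rw [h3]
    exact h2
  · have h3 : D (i, b) = ∅ := by
      ext x
      exact ⟨fun hx => h hx.1, fun hx => hx.elim⟩
    rw [h3]
    exact comLang_empty_cf

end Pool.Agent.Helper15.BB
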