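import Pool.Agent.Helper15.BB.PFIN
import Pool.Agent.Helper15.BB.PN
import Pool.Agent.Helper15.BB.PW
import Pool.Agent.Helper16.BB.PR
import Pool.Agent.Helper17.BB.PS
import Pool.Agent.Helper2.BB.PC
import Pool.Agent.Helper2.BB.PT
import Pool.Agent.Helper28.BB.PI
import Pool.Agent.Helper81.BB.PA
import Pool.Agent.Helper84.BB.PK
import Pool.Agent.Helper96.BB.PD

/-!
All modules together.
-/

namespace Pool.Agent.Helper15.BB

open Pool.Agent.Helper22.FL Pool.Agent.Helper22.CS

theorem allT : StT := Pool.Agent.Helper2.BB.stt Pool.Agent.Helper28.BB.sti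

theorem allA : StA := Pool.Agent.Helper81.BB.sta Pool.Agent.Helper28.BB.sti allT

theorem allD : StD := Pool.Agent.Helper96.BB.std Pool.Agent.Helper28.BB.sti allT

theorem all (n : ℕ) (hn : 4 ≤ n) : ∃ L : Language (Fin n),
    L.IsContextFree ∧ L ≤ blocks (id : Fin n → Fin n) ∧
    (∀ m : ℕ, m ≤ 2 * n - 3 → ∀ b : Fin m → Fin n, (comm L ⊓ blocks b).IsContextFree) ∧
    ¬ (comm L).IsContextFree :=
  main Pool.Agent.Helper84.BB.stk stw Pool.Agent.Helper16.BB.str Pool.Agent.Helper2.BB.stc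
    (Pool.Agent.Helper17.BB.sts allA allD) stn n hn

end Pool.Agent.Helper15.BB
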