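import Pool.Agent.Helper15.BB.St

/-!
Assembly.
-/

namespace Pool.Agent.Helper15.BB

open Pool.Agent.Helper22.FL Pool.Agent.Helper22.CS

variable {n : ℕ}

theorem redF_bot {w : List (Fin n)} (h : RedF (fun _ _ => False) (fun _ => False) w) :
    w = [] := by
  induction h with
  | nil => rfl
  | one h => exact h.elim
  | cat _ _ h1 h2 => rw [h1, h2]; rfl
  | pair h _ _ => exact h.elim

theorem inter_blocks_cf {m : ℕ} (b : Fin (m + 1) → Fin n) {L : Language (Fin n)}
    (hL : L.IsContextFree) : (L ⊓ blocks b).IsContextFree := by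
  have h := isContextFree_inter hL (patRuns b) 0 (Fin.last m)
  have : L ⊓ blocks b = {w | w ∈ L ∧ (patRuns b).rel 0 w (Fin.last m)} := by
    ext w
    exact ⟨fun h => ⟨h.1, patRuns_iff.2 h.2⟩, fun h => ⟨h.1, patRuns_iff.1 h.2⟩⟩
  rw [this]
  exact h

theorem slice_cf (hK : StK) (hW : StW) (hR : StR) (hC : StC) (hS : StS) (hn : 4 ≤ n) {m : ℕ}
    (hm : m ≤ 2 * n - 3) (b : Fin m → Fin n) :
    (comLang (SB n) ⊓ blocks b).IsContextFree := by
  have hnil : Language.IsContextFree
      ({w | RedF (fun _ _ => False) (fun _ => False) w} : Language (Fin n)) := hR (Fin n) _ _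
  have h0 : ([] : List (Fin n)) ∈ comLang (SB n) := Or.inr fun i j => rfl
  rcases m with _ | m
  · have : comLang (SB n) ⊓ blocks b =
        {w | RedF (fun _ _ => False) (fun _ => False) w} := by
      ext w
      constructor
      · rintro ⟨_, k, hk⟩
        have : w = [] := by simpa using hk
        rw [this]
        exact RedF.nil
      · intro h
        rw [redF_bot h]
        exact ⟨h0, fun _ => 0, by simp⟩
    rw [this]
    exact hnil
  have key : ∀ N : Language (Fin n), N.IsContextFree → N ≤ comLang (SB n) →
      (∀ w ∈ blocks b, AllEq (parikh w) → w ∈ N) →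
        (comLang (SB n) ⊓ blocks b).IsContextFree := by
    intro N hN h1 h2
    have : comLang (SB n) ⊓ blocks b =
        (({w | ¬ InV (parikh w)} : Language (Fin n)) ⊔ N) ⊓ blocks b := by
      ext w
      constructor
      · rintro ⟨h | h, hb⟩
        · exact ⟨Or.inl h, hb⟩
        · exact ⟨Or.inr (h2 w hb h), hb⟩
      · rintro ⟨h | h, hb⟩
        · exact ⟨Or.inl h, hb⟩
        · exact ⟨h1 h, hb⟩
    rw [this]
    exact inter_blocks_cf b (isContextFree_sup (hW n) hN)
  rcases hS n (m + 1) b hn hm with ⟨a, ha⟩ | ⟨i, j, k, l, hd, h⟩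
  · refine key _ hnil ?_ ?_
    · intro w hw
      rw [redF_bot hw]
      exact h0
    · intro w hb hw
      obtain ⟨ps, _, rfl⟩ := mem_blocks_iff.1 hb
      have hc : (ps.map b).count a = 0 := by
        rw [List.count_eq_zero]
        intro h
        obtain ⟨u, _, hu⟩ := List.mem_map.1 h
        exact ha u hu
      have : ps.map b = [] := by
        rw [List.eq_nil_iff_forall_not_mem]
        intro c hc'
        have h1 : (ps.map b).count c = (ps.map b).count a := hw c a
        rw [hc, List.count_eq_zero] at h1
        exact h1 hc'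
      rw [this]
      exact RedF.nil
  · refine key _ (hR (Fin n) (Mt i j k l) (Fr i j k l)) ?_ h
    intro w hw
    obtain ⟨h1, h2⟩ := hC n i j k l hd w hw
    by_cases hV : InV (parikh w)
    · exact Or.inr (hK n _ hV i j k l hd h1 h2)
    · exact Or.inl hV

theorem main (hK : StK) (hW : StW) (hR : StR) (hC : StC) (hS : StS) (hN : StN)
    (n : ℕ) (hn : 4 ≤ n) : ∃ L : Language (Fin n),
      L.IsContextFree ∧ L ≤ blocks (id : Fin n → Fin n) ∧
      (∀ m : ℕ, m ≤ 2 * n - 3 → ∀ b : Fin m → Fin n, (comm L ⊓ blocks b).IsContextFree) ∧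
      ¬ (comm L).IsContextFree := by
  have hcomm : comm (comLang (SB n) ⊓ blocks (id : Fin n → Fin n)) = comLang (SB n) := by
    rw [comm_eq_comLang]
    have : parikh '' (comLang (SB n) ⊓ blocks (id : Fin n → Fin n)) = SB n := by
      ext x
      constructor
      · rintro ⟨w, hw, rfl⟩
        exact hw.1
      · intro hx
        have hp : parikh (List.ofFn fun i : Fin n => List.replicate (x i) (id i)).flatten = x := by
          funext a
          change List.count a _ = _
          rw [List.count_flatten, List.map_ofFn, List.sum_ofFn]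
          simp [List.count_replicate]
        refine ⟨(List.ofFn fun i : Fin n => List.replicate (x i) (id i)).flatten, ⟨?_, x, rfl⟩, hp⟩
        change parikh _ ∈ SB n
        rw [hp]
        exact hx
    exact congrArg comLang this
  refine ⟨comLang (SB n) ⊓ blocks (id : Fin n → Fin n),
    slice_cf hK hW hR hC hS hn (by omega) id, fun w hw => hw.2, fun m hm b => ?_, ?_⟩
  · rw [hcomm]
    exact slice_cf hK hW hR hC hS hn hm b
  · rw [hcomm]
    exact hN n hn

end Pool.Agent.Helper15.BB
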