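import Pool.Agent.Helper15.TS.All

/-!
PROJECT BB (MP_434a84_lc): block barrier.

THEOREM: for every n >= 4 there is a context-free L inside a_1* ... a_n* such that
comm(L) cap b_1* ... b_m* is context-free for EVERY m <= 2 n - 3 and all letters b_i, but
comm(L) is not context-free.

Every module proves ONE of the propositions below; the propositions named under `needs` are
hypotheses.  Existing tools: `Pool.Agent.Helper15.TS.stinv : StINV`,
`Pool.Agent.Helper15.TS.allPMP : StPMP`, `Pool.Agent.Helper15.TS.allSLI : StSLI`,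
`isContextFree_wtB`, `wt_icc` (TS/PWTG.lean), `isContextFree_sup`, `isContextFree_inter`,
`isContextFree_lang`, `lang_sound`, `der_nt_iff` (Helper22/FL), `mem_blocks_iff`, `patRuns_iff`
(Helper22/FL/Pattern.lean), and Helper22/FL/Red.lean (the same notion `Red` with one free letter).
-/

namespace Pool.Agent.Helper15.BB

open Pool.Agent.Helper22.FL Pool.Agent.Helper22.CS

variable {n : ℕ}

/-- the vectors satisfying the recurrence with roots 1, 2, 4:
`x_{i+3} + 14 x_{i+1} = 7 x_{i+2} + 8 x_i` -/
def InV (x : Fin n → ℕ) : Prop := ∀ (i : ℕ) (h : i + 3 < n),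
  x ⟨i + 3, h⟩ + 14 * x ⟨i + 1, by omega⟩ = 7 * x ⟨i + 2, by omega⟩ + 8 * x ⟨i, by omega⟩

/-- all coordinates are equal -/
def AllEq (x : Fin n → ℕ) : Prop := ∀ i j, x i = x j

/-- the set of the example -/
def SB (n : ℕ) : Set (Fin n → ℕ) := {x | ¬ InV x ∨ AllEq x}

/-- words reducible by cancelling pairs in the relation `P` and free letters (in `F`) -/
inductive RedF {T : Type} (P : T → T → Prop) (F : T → Prop) : List T → Prop
  | nil : RedF P F []
  | one {c : T} : F c → RedF P F [c]
  | cat {u v : List T} : RedF P F u → RedF P F v → RedF P F (u ++ v)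
  | pair {a b : T} {u : List T} : P a b → RedF P F u → RedF P F (a :: (u ++ [b]))

/-- the matching `{i j | k l}` as a symmetric relation -/
def Mt (i j k l : Fin n) : Fin n → Fin n → Prop := fun a b =>
  (a = i ∧ b = j) ∨ (a = j ∧ b = i) ∨ (a = k ∧ b = l) ∨ (a = l ∧ b = k)

/-- the letters different from `i, j, k, l` -/
def Fr (i j k l : Fin n) : Fin n → Prop := fun a => a ≠ i ∧ a ≠ j ∧ a ≠ k ∧ a ≠ l

/-- four distinct letters -/
def Dist (i j k l : Fin n) : Prop := i ≠ j ∧ i ≠ k ∧ i ≠ l ∧ j ≠ k ∧ j ≠ l ∧ k ≠ l

/-- K.  Proof.  If `n ≤ 3` there are no four distinct letters.  By the recurrence (characteristic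
polynomial `(X-1)(X-2)(X-4) = X^3 - 7 X^2 + 14 X - 8`) there are rationals `s, t, r` with
`x_a = s + t 2^a + r 4^a` for all `a : Fin n` (solve for `a = 0, 1, 2`, then strong induction on `a`).
`x_i = x_j`, `i ≠ j`: `(2^i - 2^j) (t + r (2^i + 2^j)) = 0`, so `t + r (2^i + 2^j) = 0`; the same for `k, l`;
so `r (2^i + 2^j - 2^k - 2^l) = 0`.  As `{i, j} ≠ {k, l}` are disjoint pairs,
`2^i + 2^j ≠ 2^k + 2^l` (uniqueness of binary expansions: `geomSum_injective` in
Mathlib/Combinatorics/Colex.lean, applied to `{i, j}` and `{k, l}`; or: wlog i is the smallest of the four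
and divide by 2^i: the left side is odd, the right side even).  So `r = 0`, `t = 0`. -/
def StK : Prop := ∀ (n : ℕ) (x : Fin n → ℕ), InV x → ∀ i j k l : Fin n, Dist i j k l →
  x i = x j → x k = x l → AllEq x

/-- W.  Proof.  `¬ InV (parikh w)` iff for some `i` with `i + 3 < n` the weighted count
`∑ α_a (count a w)`, with `α` = `1, -7, 14, -8` at `i+3, i+2, i+1, i` and `0` elsewhere, is `≥ 1` or `≤ -1`.
Finite union (`isContextFree_sup` over `Finset.range n`, start with the empty language: see
`comLang_empty_cf`, `comLang_sUnion_cf` in TS/PFIN.lean).  `{w | 1 ≤ ∑ α_a (count a w)}` is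
`{w | Wt (fun t => Set.Icc (-14) (α t)) w 1}` by `wt_icc` (since `∑ (-14) (count) ≤ 0 ≤ 1`),
context-free by `isContextFree_wtB` with `B = 14`; for `≤ -1` use `-α`. -/
def StW : Prop := ∀ n : ℕ, Language.IsContextFree ({w | ¬ InV (parikh w)} : Language (Fin n))

/-- R.  Proof: like `isContextFree_red` in Helper22/FL/Red.lean (one nonterminal; the rules
`S → [c]` for `c ∈ F`; finitely many as `T` is finite). -/
def StR : Prop := ∀ (T : Type) [Finite T] (P : T → T → Prop) (F : T → Prop),
  Language.IsContextFree ({w | RedF P F w} : Language T)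

/-- I.  Proof.  First `RedF.insert`: if `u ++ v` and `s` are reducible then `u ++ s ++ v` is (like
`Red.insert` in Helper22/FL/Red.lean).  Then by induction on `w`, generalising `u`:
`RedF (u ++ w.filter (not free)) → RedF (u ++ w)`; if `w = c :: w'` with `c` free: IH for `u`, then insert
`[c]`; if not free: IH for `u ++ [c]`. -/
def StI : Prop := ∀ (T : Type) (P : T → T → Prop) (F : T → Prop) [DecidablePred F],
  (∀ u v s : List T, RedF P F (u ++ v) → RedF P F s → RedF P F (u ++ s ++ v)) ∧
    ∀ w : List T, RedF P F (w.filter fun c => decide (¬ F c)) → RedF P F w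

/-- T (needs I).  Proof: strong induction on the length.  If `w` is not empty it contains both
letters (equal counts), so it has two adjacent different letters, `w = u ++ [x, y] ++ v` with
`{x, y} = {a, b}`; `u ++ v` has equal counts, is shorter, so reducible; `[x, y]` is reducible by `pair`;
insert it by I. -/
def StT : Prop := ∀ (n : ℕ) (P : Fin n → Fin n → Prop) (F : Fin n → Prop) (a b : Fin n), a ≠ b →
  P a b → P b a → ∀ w : List (Fin n), (∀ c ∈ w, c = a ∨ c = b) → w.count a = w.count b →
    RedF P F w

/-- C.  Proof: induction on `RedF`. -/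
def StC : Prop := ∀ (n : ℕ) (i j k l : Fin n), Dist i j k l → ∀ w : List (Fin n),
  RedF (Mt i j k l) (Fr i j k l) w → w.count i = w.count j ∧ w.count k = w.count l

/-- A (adjacent pair; needs I, T).  `b : Fin m → Fin n` a pattern, `s` the ONLY position of
the letter `i`, `t` the only position of the letter `j`, `s < t`, and no position strictly
between `s` and `t` carries `k` or `l`.  Then the words of `blocks b` with all counts equal are reducible.
Proof.  Let `w = ps.map b`, `ps` sorted (`mem_blocks_iff`).  `ps = A ++ B ++ C` with `A` the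
positions `< s`, `B` those in `[s, t]`, `C` those `> t`.  By I it is enough to treat the word without
the free letters: `A' ++ i^x ++ j^x ++ C'`, where `A'`, `C'` only have the letters `k, l` and
`x = count i w = count j w`.  `A' ++ C'` has equal counts of `k` and `l`: reducible by T;
`i^x j^x` is reducible (iterated `pair`, or T); insert it in between by I. -/
def StA : Prop := ∀ (n m : ℕ) (b : Fin m → Fin n) (i j k l : Fin n) (s t : Fin m),
  Dist i j k l → (∀ u, b u = i ↔ u = s) → (∀ u, b u = j ↔ u = t) → s < t →
    (∀ u, s < u → u < t → b u ≠ k ∧ b u ≠ l) → ∀ w ∈ blocks b, AllEq (parikh w) →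
      RedF (Mt i j k l) (Fr i j k l) w

/-- D (nested case; needs I, T).  `s` is the only position of the letter `i`, `t` the only position
of the letter `j`, and all positions of the letters `k` and `l` are strictly between `s` and `t`.
Then the words of `blocks b` with all counts equal are reducible.
Proof.  If no position carries `k` then `count k w = 0`, all counts are `0` and the word has only
free letters.  Otherwise `s < t`.  As in A; without the free letters the word is `i^x ++ W ++ j^x` with `W` a
word in the letters `k, l` with equal counts: reducible by T, then `x` times `pair`. -/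
def StD : Prop := ∀ (n m : ℕ) (b : Fin m → Fin n) (i j k l : Fin n) (s t : Fin m),
  Dist i j k l → (∀ u, b u = i ↔ u = s) → (∀ u, b u = j ↔ u = t) →
    (∀ u, b u = k ∨ b u = l → s < u ∧ u < t) → ∀ w ∈ blocks b, AllEq (parikh w) →
      RedF (Mt i j k l) (Fr i j k l) w

/-- S (selection; needs A, D).  Proof.  Let `μ a` be the number of positions of the letter `a`; `∑ μ a = m
≤ 2 n - 3`.  If some `μ a = 0`: first alternative.  Otherwise `∑ (μ a - 1) ≤ n - 3`, so at least three
letters are single (`μ = 1`).
If at least four are single, take four of them in the order of their positions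
`s1 < s2 < s3 < s4`: A with `(i, j) = ` letters at `s1, s2`, `(k, l)` at `s3, s4`.
If exactly three are single, all the `n - 3` others have `μ a - 1 ≥ 1` with sum `≤ n - 3`, so `μ a = 2`, and
there is one of them, `a`, since `n ≥ 4`.  Let `s1 < s2 < s3` be the positions of the single letters
`p, q, r` and `t1 < t2` those of `a`.
If no `t` is in `(s1, s2)`: A with `i = p, j = q, k = a, l = r`.
If no `t` is in `(s2, s3)`: A with `i = q, j = r, k = a, l = p`.
Otherwise `s1 < t1 < s2 < t2 < s3`: D with `i = p, j = r, k = a, l = q`. -/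
def StS : Prop := ∀ (n m : ℕ) (b : Fin m → Fin n), 4 ≤ n → m ≤ 2 * n - 3 →
  (∃ a, ∀ u, b u ≠ a) ∨ ∃ i j k l : Fin n, Dist i j k l ∧
    ∀ w ∈ blocks b, AllEq (parikh w) → RedF (Mt i j k l) (Fr i j k l) w

/-- N.  Proof.  Suppose it is context-free; then `TestCF (SB n)` by `allSLI`, and `allPMP` applies to
`c = 0`, `q 0 = (2^a)`, `q 1 = (4^a)`, `q 2 = (2 * 4^n - 2^a - 4^a)` (positive vectors): `K`.  For all `k`:
`x = ∑ k_j q_j` satisfies `InV` (each of `1, 2^a, 4^a` satisfies the recurrence), so `x ∈ SB n` iff
all coordinates are equal, iff `(k 0 - k 2) 2^a + (k 1 - k 2) 4^a` does not depend on `a`; comparing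
`a = 0, 1, 2` (`n ≥ 3`): `u + v = 2 u + 4 v = 4 u + 16 v` gives `u = v = 0`, so
`k 0 = k 1 = k 2`.  `k = (K, K, K)` gives `ρ` with `1 ≤ ρ 1`, `ρ 0 = 0 ∨ ρ 2 = 0`, and (`i = 1`)
`k + ρ` has equal coordinates, so `ρ 0 = ρ 1 = ρ 2`: contradiction. -/
def StN : Prop := ∀ n : ℕ, 4 ≤ n → ¬ (comLang (SB n)).IsContextFree

end Pool.Agent.Helper15.BB
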